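import Mathlib

/-!
# The weak maximizing property: definitions
-/

set_option autoImplicit false

open Filter Topology

namespace Pool.Agent.H516W

section Defs

variable {𝕜 : Type*} [RCLike 𝕜] {E : Type*} [NormedAddCommGroup E] [NormedSpace 𝕜 E]
  {F : Type*} [NormedAddCommGroup F] [NormedSpace 𝕜 F]

/-- The operator `T` attains its norm. -/
def AttainsNorm (T : E →L[𝕜] F) : Prop := ∃ x : E, ‖x‖ = 1 ∧ ‖T x‖ = ‖T‖

/-- `x` is a maximizing sequence for `T`. -/
def IsMaximizing (T : E →L[𝕜] F) (x : ℕ → E) : Prop :=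
  (∀ n, ‖x n‖ = 1) ∧ Tendsto (fun n => ‖T (x n)‖) atTop (𝓝 ‖T‖)

variable (𝕜)

/-- The sequence `x` is weakly null. -/
def WeaklyNull (x : ℕ → E) : Prop :=
  ∀ φ : StrongDual 𝕜 E, Tendsto (fun n => φ (x n)) atTop (𝓝 0)

variable (E F)

/-- The pair `(E, F)` has the weak maximizing property: every bounded operator `T : E → F` with a
maximizing sequence which is not weakly null attains its norm. -/
def HasWMP : Prop :=
  ∀ T : E →L[𝕜] F, (∃ x : ℕ → E, IsMaximizing T x ∧ ¬ WeaklyNull 𝕜 x) → AttainsNorm T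

end Defs

end Pool.Agent.H516W
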