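import Mathlib
import Pool.Agent.H516_James.Sup

/-!
# Weak* null sequences in the dual of a reflexive space
-/

set_option autoImplicit false

open Filter Topology Set

namespace Pool.Agent.H516W

variable {𝕜 : Type*} [RCLike 𝕜] {E : Type*} [NormedAddCommGroup E] [NormedSpace 𝕜 E]

/-- If all functionals attain their norm, the space is reflexive. -/
theorem refl_of_attain [NormedSpace ℝ E] [IsScalarTower ℝ 𝕜 E] [CompleteSpace E]
    (h : ∀ φ : StrongDual 𝕜 E, ∃ x, ‖x‖ ≤ 1 ∧ ‖φ x‖ = ‖φ‖) :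
    ∀ Φ : StrongDual 𝕜 (StrongDual 𝕜 E), ∃ y : E, ∀ f : StrongDual 𝕜 E, Φ f = f y := by
  have hr : ∀ φ : StrongDual ℝ E, ∃ y, ‖y‖ ≤ 1 ∧ φ y = ‖φ‖ := by
    intro φ
    set φ' : StrongDual 𝕜 E := φ.extendRCLike with hφ'
    have hn : ‖φ'‖ = ‖φ‖ := StrongDual.norm_extendRCLike φ
    have hre : ∀ x, RCLike.re (φ' x) = φ x := fun x => StrongDual.re_extendRCLike_apply φ x
    obtain ⟨x, hx, hx'⟩ := h φ'
    rcases eq_or_ne (φ' x) 0 with h0 | h0
    · refine ⟨0, by simp, ?_⟩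
      rw [h0, norm_zero] at hx'
      rw [map_zero, ← hn, ← hx']
    · have hpos : 0 < ‖φ' x‖ := norm_pos_iff.2 h0
      refine ⟨((starRingEnd 𝕜) (φ' x) / (‖φ' x‖ : 𝕜)) • x, ?_, ?_⟩
      · rw [norm_smul, norm_div, RCLike.norm_conj, RCLike.norm_ofReal, abs_of_pos hpos,
          div_self hpos.ne', one_mul]
        exact hx
      · rw [← hre, map_smul, smul_eq_mul, div_mul_eq_mul_div, RCLike.conj_mul, pow_two,
          mul_div_assoc, div_self (by exact_mod_cast hpos.ne'), mul_one, RCLike.ofReal_re, hx', hn]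
  have hs := H516J.james hr
  intro Φ
  let e : StrongDual ℝ E →L[ℝ] StrongDual 𝕜 E :=
    ((StrongDual.extendRCLikeₗᵢ (𝕜 := 𝕜) (F := E)).toContinuousLinearEquiv :
      StrongDual ℝ E →L[ℝ] StrongDual 𝕜 E)
  let Ψ : StrongDual ℝ (StrongDual ℝ E) :=
    ((RCLike.reCLM : 𝕜 →L[ℝ] ℝ).comp (Φ.restrictScalars ℝ)).comp e
  obtain ⟨y, hy⟩ := hs Ψ
  have hy' : ∀ f : StrongDual 𝕜 E, RCLike.re (Φ f) = RCLike.re (f y) := by
    intro f
    let φ : StrongDual ℝ E := (RCLike.reCLM : 𝕜 →L[ℝ] ℝ).comp (f.restrictScalars ℝ)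
    have he : e φ = f := (StrongDual.extendRCLikeₗ (𝕜 := 𝕜) (F := E)).right_inv f
    have h1 : (NormedSpace.inclusionInDoubleDual ℝ E y) φ = Ψ φ := by rw [hy]
    have h2 : (NormedSpace.inclusionInDoubleDual ℝ E y) φ = RCLike.re (f y) := rfl
    have h3 : Ψ φ = RCLike.re (Φ (e φ)) := rfl
    rw [h2, h3, he] at h1
    exact h1.symm
  refine ⟨y, fun f => ?_⟩
  apply RCLike.ext
  · exact hy' f
  · have h4 := hy' ((RCLike.I : 𝕜) • f)
    rw [map_smul, smul_eq_mul, smul_apply, smul_eq_mul, RCLike.I_mul_re,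
      RCLike.I_mul_re] at h4
    linarith

/-- limits along ultrafilters -/
theorem exists_ultralimit (U : Ultrafilter ℕ) (f : ℕ → StrongDual 𝕜 E) (hf : ∀ n, ‖f n‖ ≤ 1) :
    ∃ w : StrongDual 𝕜 E, ∀ x, Tendsto (fun n => f n x) U (𝓝 (w x)) := by
  have hex : ∀ x : E, ∃ l : 𝕜, ‖l‖ ≤ ‖x‖ ∧ Tendsto (fun n => f n x) U (𝓝 l) := by
    intro x
    have hc : IsCompact (Metric.closedBall (0 : 𝕜) ‖x‖) := isCompact_closedBall _ _
    have hmem : ∀ n, f n x ∈ Metric.closedBall (0 : 𝕜) ‖x‖ := by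
      intro n
      rw [mem_closedBall_zero_iff]
      calc ‖f n x‖ ≤ ‖f n‖ * ‖x‖ := (f n).le_opNorm x
        _ ≤ 1 * ‖x‖ := mul_le_mul_of_nonneg_right (hf n) (norm_nonneg _)
        _ = ‖x‖ := one_mul _
    have hle : ((U.map fun n => f n x : Ultrafilter 𝕜) : Filter 𝕜) ≤
        𝓟 (Metric.closedBall (0 : 𝕜) ‖x‖) := by
      rw [le_principal_iff]
      exact Filter.mem_map.2 (Eventually.of_forall hmem)
    obtain ⟨l, hl1, hl2⟩ := hc.ultrafilter_le_nhds _ hle
    exact ⟨l, mem_closedBall_zero_iff.1 hl1, hl2⟩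
  choose l hl1 hl2 using hex
  let w : E →ₗ[𝕜] 𝕜 :=
    { toFun := l
      map_add' := fun x y => by
        have h1 := (hl2 x).add (hl2 y)
        have h2 := hl2 (x + y)
        simp only [map_add] at h2
        exact tendsto_nhds_unique h2 h1
      map_smul' := fun c x => by
        have h1 := (hl2 x).const_mul c
        have h2 := hl2 (c • x)
        simp only [map_smul, smul_eq_mul] at h2
        exact tendsto_nhds_unique h2 h1 }
  exact ⟨w.mkContinuous 1 fun x => by rw [one_mul]; exact hl1 x, hl2⟩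

/-- The dual of an infinite-dimensional space is infinite-dimensional. -/
theorem dual_infinite (hinf : ¬ FiniteDimensional 𝕜 E) : ¬ FiniteDimensional 𝕜 (StrongDual 𝕜 E) := by
  intro h
  apply hinf
  let b := Module.finBasis 𝕜 (StrongDual 𝕜 E)
  let J : E →ₗ[𝕜] (Fin (Module.finrank 𝕜 (StrongDual 𝕜 E)) → 𝕜) :=
    LinearMap.pi fun i => ((b i : StrongDual 𝕜 E) : E →ₗ[𝕜] 𝕜)
  have hJ : Function.Injective J := by
    rw [injective_iff_map_eq_zero]
    intro x hx
    have h1 : ∀ i, (b i : StrongDual 𝕜 E) x = 0 := fun i => congrFun hx i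
    by_contra hx0
    obtain ⟨g, -, hg⟩ := exists_dual_vector 𝕜 x (norm_ne_zero_iff.2 hx0)
    have h2 : g x = 0 := by
      have h3 := congrArg (fun φ : StrongDual 𝕜 E => φ x) (b.sum_repr g)
      simp only [sum_apply, smul_apply, h1, smul_zero, Finset.sum_const_zero] at h3
      exact h3.symm
    rw [h2] at hg
    exact hx0 (norm_eq_zero.1 (by exact_mod_cast hg.symm))
  exact Module.Finite.of_injective J hJ

/-- A linearly independent sequence. -/
theorem exists_linInd {V : Type*} [AddCommGroup V] [Module 𝕜 V] (h : ¬ FiniteDimensional 𝕜 V) :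
    ∃ v : ℕ → V, LinearIndependent 𝕜 v := by
  let b := Module.Basis.ofVectorSpace 𝕜 V
  have hinf : Infinite (Module.Basis.ofVectorSpaceIndex 𝕜 V) := by
    by_contra hfin
    rw [not_infinite_iff_finite] at hfin
    exact h (Module.Finite.of_basis b)
  exact ⟨fun n => b (Infinite.natEmbedding _ n),
    b.linearIndependent.comp _ (Infinite.natEmbedding _).injective⟩

/-- Hahn-Banach for closed subspaces -/
theorem exists_vanish {V : Type*} [NormedAddCommGroup V] [NormedSpace 𝕜 V] (Z : Submodule 𝕜 V)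
    (hZ : IsClosed (Z : Set V)) {w : V} (hw : w ∉ Z) :
    ∃ Φ : StrongDual 𝕜 V, Φ w ≠ 0 ∧ ∀ z ∈ Z, Φ z = 0 := by
  have : IsClosed (Z : Set V) := hZ
  have h0 : (Submodule.Quotient.mk w : V ⧸ Z) ≠ 0 := by
    rwa [Ne, Submodule.Quotient.mk_eq_zero]
  obtain ⟨g, -, hg⟩ := exists_dual_vector 𝕜 (Submodule.Quotient.mk w : V ⧸ Z) (norm_ne_zero_iff.2 h0)
  refine ⟨g.comp Z.mkQL, ?_, fun z hz => ?_⟩
  · show g (Submodule.Quotient.mk w) ≠ 0
    rw [hg]
    exact_mod_cast norm_ne_zero_iff.2 h0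
  · show g (Submodule.Quotient.mk z) = 0
    rw [(Submodule.Quotient.mk_eq_zero Z).2 hz, map_zero]

/-- Weak* null normalised sequences in the dual of a reflexive space. -/
theorem exists_null (hinf : ¬ FiniteDimensional 𝕜 E)
    (hrefl : ∀ Φ : StrongDual 𝕜 (StrongDual 𝕜 E), ∃ y : E, ∀ f : StrongDual 𝕜 E, Φ f = f y) :
    ∃ f : ℕ → StrongDual 𝕜 E, (∀ n, ‖f n‖ = 1) ∧ ∀ x, Tendsto (fun n => f n x) atTop (𝓝 0) := by
  classical
  obtain ⟨v, hv⟩ := exists_linInd (dual_infinite hinf)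
  let Z : Submodule 𝕜 (StrongDual 𝕜 E) := (Submodule.span 𝕜 (range v)).topologicalClosure
  have hsep : TopologicalSpace.IsSeparable (Z : Set (StrongDual 𝕜 E)) := by
    have h1 : TopologicalSpace.IsSeparable (range v) := (countable_range v).isSeparable
    have h2 : TopologicalSpace.IsSeparable
        ((Submodule.span 𝕜 (range v) : Submodule 𝕜 _) : Set (StrongDual 𝕜 E)) := h1.span
    exact h2.closure
  obtain ⟨C, hC, hCZ⟩ := hsep
  have hCne : C.Nonempty := by
    by_contra hne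
    rw [not_nonempty_iff_eq_empty] at hne
    rw [hne, closure_empty] at hCZ
    exact hCZ Z.zero_mem
  obtain ⟨c, hc⟩ := hC.exists_eq_range hCne
  -- norming vectors
  have hnorm : ∀ n, ∃ x : E, ‖x‖ ≤ 1 ∧ ‖c n‖ / 2 ≤ ‖c n x‖ := by
    intro n
    rcases eq_or_ne (c n) 0 with h0 | h0
    · exact ⟨0, by simp, by simp [h0]⟩
    · obtain ⟨x, hx, hx'⟩ := (c n).exists_lt_apply_of_lt_opNorm
        (half_lt_self (norm_pos_iff.2 h0))
      exact ⟨x, hx.le, hx'.le⟩
  choose x hx1 hx2 using hnorm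
  have htot : ∀ z ∈ Z, (∀ n, z (x n) = 0) → z = 0 := by
    intro z hz hzx
    by_contra hz0
    have hpos : 0 < ‖z‖ := norm_pos_iff.2 hz0
    have hzc : z ∈ closure C := hCZ hz
    obtain ⟨u, hu, hu'⟩ := Metric.mem_closure_iff.1 hzc (‖z‖ / 4) (by positivity)
    rw [hc] at hu
    obtain ⟨n, rfl⟩ := hu
    rw [dist_eq_norm] at hu'
    have h1 : ‖c n (x n)‖ ≤ ‖z‖ / 4 := by
      have e : c n (x n) = -((z - c n) (x n)) := by
        rw [sub_apply, hzx n]
        ring
      rw [e, norm_neg]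
      calc ‖(z - c n) (x n)‖ ≤ ‖z - c n‖ * ‖x n‖ := (z - c n).le_opNorm _
        _ ≤ ‖z - c n‖ * 1 := mul_le_mul_of_nonneg_left (hx1 n) (norm_nonneg _)
        _ ≤ ‖z‖ / 4 := by rw [mul_one]; exact hu'.le
    have h2 : ‖z‖ ≤ ‖z - c n‖ + ‖c n‖ := by
      calc ‖z‖ = ‖(z - c n) + c n‖ := by rw [sub_add_cancel]
        _ ≤ _ := norm_add_le _ _
    linarith [hx2 n]
  -- the sequence
  have hf : ∀ n : ℕ, ∃ f : StrongDual 𝕜 E, f ∈ Z ∧ ‖f‖ = 1 ∧ ∀ j < n, f (x j) = 0 := by
    intro n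
    let L : (Fin (n + 1) → 𝕜) →ₗ[𝕜] (Fin n → 𝕜) :=
      { toFun := fun a j => (∑ k, a k • v k) (x j)
        map_add' := fun a b => by
          funext j
          simp [add_mul, Finset.sum_add_distrib]
        map_smul' := fun t a => by
          funext j
          simp [Finset.mul_sum, mul_assoc] }
    have hker : LinearMap.ker L ≠ ⊥ := LinearMap.ker_ne_bot_of_finrank_lt (by simp)
    obtain ⟨a, ha, ha0⟩ := Submodule.exists_mem_ne_zero_of_ne_bot hker
    set z : StrongDual 𝕜 E := ∑ k : Fin (n + 1), a k • v k with hz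
    have hz0 : z ≠ 0 := by
      intro h0
      apply ha0
      have hli : LinearIndependent 𝕜 (fun k : Fin (n + 1) => v k) :=
        hv.comp _ Fin.val_injective
      funext k
      exact Fintype.linearIndependent_iff.1 hli a (by rw [← hz]; exact h0) k
    have hzpos : 0 < ‖z‖ := norm_pos_iff.2 hz0
    have hzZ : z ∈ Z := by
      apply Submodule.le_topologicalClosure
      rw [hz]
      exact Submodule.sum_mem _ fun k _ => Submodule.smul_mem _ _
        (Submodule.subset_span ⟨k, rfl⟩)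
    have hzx : ∀ j < n, z (x j) = 0 := by
      intro j hj
      have h1 : L a = 0 := ha
      have h2 := congrFun h1 ⟨j, hj⟩
      exact h2
    refine ⟨((‖z‖⁻¹ : ℝ) : 𝕜) • z, Z.smul_mem _ hzZ, ?_, ?_⟩
    · rw [norm_smul, RCLike.norm_ofReal, abs_of_pos (inv_pos.2 hzpos), inv_mul_cancel₀ hzpos.ne']
    · intro j hj
      rw [smul_apply, hzx j hj, smul_zero]
  choose f hfZ hf1 hfx using hf
  refine ⟨f, hf1, fun y => ?_⟩
  rw [tendsto_iff_ultrafilter]
  intro U hU
  obtain ⟨w, hw⟩ := exists_ultralimit U f fun n => (hf1 n).le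
  have hwZ : w ∈ Z := by
    by_contra hwZ
    have hclosed : IsClosed (Z : Set (StrongDual 𝕜 E)) :=
      (Submodule.span 𝕜 (range v)).isClosed_topologicalClosure
    obtain ⟨Φ, hΦ1, hΦ2⟩ := exists_vanish Z hclosed hwZ
    obtain ⟨y', hy'⟩ := hrefl Φ
    have h1 : ∀ n, f n y' = 0 := fun n => by
      rw [← hy']
      exact hΦ2 _ (hfZ n)
    have h2 := hw y'
    simp only [h1] at h2
    have h3 : w y' = 0 := tendsto_nhds_unique h2 tendsto_const_nhds
    rw [← hy'] at h3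
    exact hΦ1 h3
  have hw0 : w = 0 := htot w hwZ fun j => by
    have h1 : Tendsto (fun n => f n (x j)) U (𝓝 0) := by
      refine tendsto_const_nhds.congr' ?_
      have h2 : ∀ᶠ n in atTop, (0 : 𝕜) = f n (x j) := by
        filter_upwards [eventually_gt_atTop j] with n hn
        exact (hfx n j hn).symm
      exact hU h2
    exact tendsto_nhds_unique (hw (x j)) h1
  have := hw y
  rw [hw0] at this
  exact this

end Pool.Agent.H516W
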