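import Mathlib
import Pool.Agent.H516_WMP.Null
import Pool.Agent.H516_WMP.Defs

/-!
# The weak maximizing property for operators into `ℓ_∞`
-/

set_option autoImplicit false

open Filter Topology Set
open scoped ENNReal

namespace Pool.Agent.H516W

variable {𝕜 : Type*} [RCLike 𝕜] {E : Type*} [NormedAddCommGroup E] [NormedSpace 𝕜 E]

/-- the operator into `ℓ_∞` given by a bounded sequence of functionals -/
noncomputable def toLinf (w : ℕ → StrongDual 𝕜 E) (hw : ∀ n, ‖w n‖ ≤ 1) :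
    E →L[𝕜] lp (fun _ : ℕ => 𝕜) ∞ :=
  LinearMap.mkContinuous
    { toFun := fun x => ⟨fun n => w n x, memℓp_infty ⟨‖x‖, by
        rintro _ ⟨n, rfl⟩
        calc ‖w n x‖ ≤ ‖w n‖ * ‖x‖ := (w n).le_opNorm x
          _ ≤ 1 * ‖x‖ := mul_le_mul_of_nonneg_right (hw n) (norm_nonneg _)
          _ = ‖x‖ := one_mul _⟩⟩
      map_add' := fun x y => by
        ext n
        simp
      map_smul' := fun c x => by
        ext n
        simp } 1 (fun x => by
      refine lp.norm_le_of_forall_le (by positivity) fun n => ?_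
      exact ((w n).le_opNorm x).trans (mul_le_mul_of_nonneg_right (hw n) (norm_nonneg _)))

theorem toLinf_apply (w : ℕ → StrongDual 𝕜 E) (hw : ∀ n, ‖w n‖ ≤ 1) (x : E) (n : ℕ) :
    toLinf w hw x n = w n x := rfl

theorem norm_toLinf (w : ℕ → StrongDual 𝕜 E) (hw : ∀ n, ‖w n‖ ≤ 1) : ‖toLinf w hw‖ ≤ 1 :=
  LinearMap.mkContinuous_norm_le _ zero_le_one _

/-- A sequence of functionals that contradicts the weak maximizing property. -/
theorem wmp_seq (h : HasWMP 𝕜 E (lp (fun _ : ℕ => 𝕜) ∞)) (w : ℕ → StrongDual 𝕜 E)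
    (hw : ∀ n, ‖w n‖ ≤ 1) (hlt : ∀ x : E, ‖x‖ = 1 → ∃ c : ℝ, c < 1 ∧ ∀ n, ‖w n x‖ ≤ c)
    (x : ℕ → E) (hx : ∀ n, ‖x n‖ = 1) (hmax : Tendsto (fun n => ‖w n (x n)‖) atTop (𝓝 1))
    (φ : StrongDual 𝕜 E) (δ : ℝ) (hδ : 0 < δ) (hφ : ∀ n, δ ≤ ‖φ (x n)‖) : False := by
  set T := toLinf w hw with hT
  have hT1 : ‖T‖ ≤ 1 := norm_toLinf w hw
  have hle : ∀ n, ‖w n (x n)‖ ≤ ‖T (x n)‖ := fun n =>
    lp.norm_apply_le_norm (by simp) (T (x n)) n
  have hle2 : ∀ n, ‖T (x n)‖ ≤ ‖T‖ := fun n => by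
    have := T.le_opNorm (x n)
    rwa [hx n, mul_one] at this
  have hT1' : ‖T‖ = 1 := le_antisymm hT1 (le_of_tendsto' hmax fun n => (hle n).trans (hle2 n))
  have hlim : Tendsto (fun n => ‖T (x n)‖) atTop (𝓝 ‖T‖) := by
    rw [hT1']
    refine tendsto_of_tendsto_of_tendsto_of_le_of_le hmax tendsto_const_nhds hle ?_
    intro n
    exact (hle2 n).trans hT1
  obtain ⟨y, hy, hy'⟩ := h T ⟨x, ⟨hx, hlim⟩, fun hnull => by
    have h1 := (hnull φ).norm
    rw [norm_zero] at h1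
    exact absurd (ge_of_tendsto' h1 hφ) (not_le.2 hδ)⟩
  obtain ⟨c, hc, hc'⟩ := hlt y hy
  have h2 : ‖T y‖ ≤ c := lp.norm_le_of_forall_le' c hc'
  rw [hy', hT1'] at h2
  linarith

/-- almost norming unit vectors -/
theorem exists_unit (φ : StrongDual 𝕜 E) {r : ℝ} (hr0 : 0 ≤ r) (hr : r < ‖φ‖) :
    ∃ x, ‖x‖ = 1 ∧ r < ‖φ x‖ := by
  obtain ⟨x, hx, hx'⟩ := φ.exists_lt_apply_of_lt_opNorm hr
  have hx0 : x ≠ 0 := by
    rintro rfl
    rw [map_zero, norm_zero] at hx'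
    linarith
  have hpos : 0 < ‖x‖ := norm_pos_iff.2 hx0
  refine ⟨((‖x‖⁻¹ : ℝ) : 𝕜) • x, ?_, ?_⟩
  · rw [norm_smul, RCLike.norm_ofReal, abs_of_pos (inv_pos.2 hpos), inv_mul_cancel₀ hpos.ne']
  · rw [map_smul, norm_smul, RCLike.norm_ofReal, abs_of_pos (inv_pos.2 hpos)]
    have h1 : 1 ≤ ‖x‖⁻¹ := (one_le_inv₀ hpos).2 hx.le
    have h2 : 0 < ‖φ x‖ := lt_of_le_of_lt hr0 hx'
    nlinarith

theorem attain_of_wmp (h : HasWMP 𝕜 E (lp (fun _ : ℕ => 𝕜) ∞)) (φ : StrongDual 𝕜 E) :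
    ∃ x, ‖x‖ ≤ 1 ∧ ‖φ x‖ = ‖φ‖ := by
  rcases eq_or_ne φ 0 with rfl | hφ0
  · exact ⟨0, by simp, by simp⟩
  by_contra hcon
  push Not at hcon
  have hpos : 0 < ‖φ‖ := norm_pos_iff.2 hφ0
  have hex : ∀ n : ℕ, ∃ x, ‖x‖ = 1 ∧ ‖φ‖ * (1 - 1 / ((n : ℝ) + 2)) < ‖φ x‖ := by
    intro n
    have h1 : 1 / ((n : ℝ) + 2) ≤ 1 := by
      rw [div_le_one (by positivity)]
      linarith [Nat.cast_nonneg (α := ℝ) n]
    have h2 : 0 < 1 / ((n : ℝ) + 2) := by positivity
    exact exists_unit φ (mul_nonneg hpos.le (by linarith)) (by nlinarith)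
  choose x hx hx' using hex
  have hwn : ‖((‖φ‖⁻¹ : ℝ) : 𝕜) • φ‖ ≤ 1 := by
    rw [norm_smul, RCLike.norm_ofReal, abs_of_pos (inv_pos.2 hpos), inv_mul_cancel₀ hpos.ne']
  have hval : ∀ y, ‖(((‖φ‖⁻¹ : ℝ) : 𝕜) • φ) y‖ = ‖φ‖⁻¹ * ‖φ y‖ := by
    intro y
    rw [smul_apply, norm_smul, RCLike.norm_ofReal, abs_of_pos (inv_pos.2 hpos)]
  have hle : ∀ y, ‖y‖ = 1 → ‖φ y‖ ≤ ‖φ‖ := by
    intro y hy
    have := φ.le_opNorm y
    rwa [hy, mul_one] at this
  refine wmp_seq h (fun _ => ((‖φ‖⁻¹ : ℝ) : 𝕜) • φ) (fun _ => hwn) ?_ x hx ?_ φ (‖φ‖ / 2)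
    (by positivity) ?_
  · intro y hy
    refine ⟨‖φ‖⁻¹ * ‖φ y‖, ?_, fun n => (hval y).le⟩
    have h1 : ‖φ y‖ < ‖φ‖ := lt_of_le_of_ne (hle y hy) (hcon y hy.le)
    rw [inv_mul_lt_iff₀ hpos, mul_one]
    exact h1
  · have h1 : Tendsto (fun n : ℕ => 1 - 1 / ((n : ℝ) + 2)) atTop (𝓝 1) := by
      have h2 : Tendsto (fun n : ℕ => 1 / ((n : ℝ) + 2)) atTop (𝓝 0) := by
        have h3 := (tendsto_add_atTop_iff_nat 1).2 (tendsto_one_div_add_atTop_nhds_zero_nat (𝕜 := ℝ))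
        refine h3.congr fun n => ?_
        push_cast
        ring
      simpa using tendsto_const_nhds.sub h2
    refine tendsto_of_tendsto_of_tendsto_of_le_of_le h1 tendsto_const_nhds ?_ ?_
    · intro n
      show 1 - 1 / ((n : ℝ) + 2) ≤ ‖(((‖φ‖⁻¹ : ℝ) : 𝕜) • φ) (x n)‖
      rw [hval, le_inv_mul_iff₀ hpos]
      exact (hx' n).le
    · intro n
      show ‖(((‖φ‖⁻¹ : ℝ) : 𝕜) • φ) (x n)‖ ≤ 1
      rw [hval, inv_mul_le_iff₀ hpos, mul_one]
      exact hle _ (hx n)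
  · intro n
    have h1 : 1 / ((n : ℝ) + 2) ≤ 1 / 2 := by
      rw [div_le_div_iff₀ (by positivity) (by norm_num)]
      linarith [Nat.cast_nonneg (α := ℝ) n]
    have h2 := hx' n
    nlinarith

/-- the numbers `1 - 1 / (n + 2)` -/
noncomputable def cc (n : ℕ) : ℝ := 1 - 1 / ((n : ℝ) + 2)

theorem cc_pos (n : ℕ) : 0 < cc n := by
  have : 1 / ((n : ℝ) + 2) < 1 := by
    rw [div_lt_one (by positivity)]
    linarith [Nat.cast_nonneg (α := ℝ) n]
  unfold cc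
  linarith

theorem cc_lt_one (n : ℕ) : cc n < 1 := by
  have : 0 < 1 / ((n : ℝ) + 2) := by positivity
  unfold cc
  linarith

theorem cc_mono {m n : ℕ} (h : m ≤ n) : cc m ≤ cc n := by
  have : 1 / ((n : ℝ) + 2) ≤ 1 / ((m : ℝ) + 2) := by
    apply one_div_le_one_div_of_le (by positivity)
    have : (m : ℝ) ≤ n := by exact_mod_cast h
    linarith
  unfold cc
  linarith

theorem cc_lt_succ (n : ℕ) : cc n < cc (n + 1) := by
  have : 1 / (((n + 1 : ℕ) : ℝ) + 2) < 1 / ((n : ℝ) + 2) := by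
    apply one_div_lt_one_div_of_lt (by positivity)
    push_cast
    linarith
  unfold cc
  linarith

theorem cc_tendsto : Tendsto cc atTop (𝓝 1) := by
  have h2 : Tendsto (fun n : ℕ => 1 / ((n : ℝ) + 2)) atTop (𝓝 0) := by
    have h3 := (tendsto_add_atTop_iff_nat 1).2 (tendsto_one_div_add_atTop_nhds_zero_nat (𝕜 := ℝ))
    refine h3.congr fun n => ?_
    push_cast
    ring
  have h3 : Tendsto (fun n : ℕ => 1 - 1 / ((n : ℝ) + 2)) atTop (𝓝 (1 - 0)) :=
    tendsto_const_nhds.sub h2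
  rw [sub_zero] at h3
  exact h3

/-- First case: a functional `w` for which the norms `‖w + f n‖` are often large. -/
theorem case_one (h : HasWMP 𝕜 E (lp (fun _ : ℕ => 𝕜) ∞)) (f : ℕ → StrongDual 𝕜 E)
    (hf : ∀ n, ‖f n‖ = 1) (hf0 : ∀ x, Tendsto (fun n => f n x) atTop (𝓝 0))
    (w : StrongDual 𝕜 E) (l : ℝ) (hwl : ‖w‖ < l) (hl : 1 < l)
    (hfr : ∃ᶠ n in atTop, l ≤ ‖w + f n‖) : False := by
  obtain ⟨φ, hφ, hφ'⟩ := extraction_of_frequently_atTop hfr
  set u : ℕ → StrongDual 𝕜 E := fun k => w + f (φ k) with hu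
  have huN : ∀ k, l ≤ ‖u k‖ := hφ'
  have hpos : ∀ k, 0 < ‖u k‖ := fun k => by linarith [huN k]
  have hex : ∀ k : ℕ, ∃ x, ‖x‖ = 1 ∧ ‖u k‖ - (l - 1) / 2 * (1 / ((k : ℝ) + 1)) < ‖u k x‖ := by
    intro k
    have h1 : 1 / ((k : ℝ) + 1) ≤ 1 := by
      rw [div_le_one (by positivity)]
      linarith [Nat.cast_nonneg (α := ℝ) k]
    have h2 : 0 < 1 / ((k : ℝ) + 1) := by positivity
    have h3 : (l - 1) / 2 * (1 / ((k : ℝ) + 1)) ≤ (l - 1) / 2 :=
      mul_le_of_le_one_right (by linarith) h1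
    have h4 : 0 < (l - 1) / 2 * (1 / ((k : ℝ) + 1)) := mul_pos (by linarith) h2
    exact exists_unit (u k) (by linarith [huN k]) (by linarith)
  choose x hx hx' using hex
  set v : ℕ → StrongDual 𝕜 E := fun k => ((cc k / ‖u k‖ : ℝ) : 𝕜) • u k with hv
  have hcoef : ∀ k, 0 ≤ cc k / ‖u k‖ := fun k => div_nonneg (cc_pos k).le (norm_nonneg _)
  have hvn : ∀ k, ‖v k‖ = cc k := by
    intro k
    rw [hv]
    simp only
    rw [norm_smul, RCLike.norm_ofReal, abs_of_nonneg (hcoef k), div_mul_cancel₀ _ (hpos k).ne']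
  have hval : ∀ k y, ‖v k y‖ = cc k / ‖u k‖ * ‖u k y‖ := by
    intro k y
    rw [hv]
    simp only
    rw [smul_apply, norm_smul, RCLike.norm_ofReal, abs_of_nonneg (hcoef k)]
  refine wmp_seq h v (fun k => (hvn k).le.trans (cc_lt_one k).le) ?_ x hx ?_ w ((l - 1) / 2)
    (by linarith) ?_
  · intro y hy
    have h1 : Tendsto (fun k => ‖f (φ k) y‖) atTop (𝓝 0) := by
      have := ((hf0 y).comp hφ.tendsto_atTop).norm
      rwa [norm_zero] at this
    obtain ⟨K, hK⟩ := eventually_atTop.1 (h1.eventually_le_const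
      (show (0 : ℝ) < (l - ‖w‖) / 2 by linarith))
    refine ⟨max ((l + ‖w‖) / (2 * l)) (cc K), max_lt ?_ (cc_lt_one K), fun k => ?_⟩
    · rw [div_lt_one (by linarith)]
      linarith
    · rcases le_or_gt K k with hk | hk
      · refine le_trans ?_ (le_max_left _ _)
        rw [hval]
        have h2 : ‖u k y‖ ≤ (l + ‖w‖) / 2 := by
          have h3 : ‖u k y‖ ≤ ‖w y‖ + ‖f (φ k) y‖ := norm_add_le _ _
          have h4 : ‖w y‖ ≤ ‖w‖ := by
            have := w.le_opNorm y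
            rwa [hy, mul_one] at this
          linarith [hK k hk]
        have h5 : cc k / ‖u k‖ ≤ 1 / l :=
          div_le_div₀ zero_le_one (cc_lt_one k).le (by linarith) (huN k)
        calc cc k / ‖u k‖ * ‖u k y‖ ≤ 1 / l * ((l + ‖w‖) / 2) :=
              mul_le_mul h5 h2 (norm_nonneg _) (by positivity)
          _ = (l + ‖w‖) / (2 * l) := by field_simp
      · refine le_trans ?_ (le_max_right _ _)
        calc ‖v k y‖ ≤ ‖v k‖ * ‖y‖ := (v k).le_opNorm y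
          _ = cc k := by rw [hy, mul_one, hvn]
          _ ≤ cc K := cc_mono hk.le
  · have h1 : Tendsto (fun k : ℕ => cc k * (1 - (l - 1) / 2 * (1 / ((k : ℝ) + 1)))) atTop
        (𝓝 (1 * (1 - (l - 1) / 2 * 0))) :=
      cc_tendsto.mul (tendsto_const_nhds.sub (tendsto_one_div_add_atTop_nhds_zero_nat.const_mul _))
    rw [mul_zero, sub_zero, mul_one] at h1
    refine tendsto_of_tendsto_of_tendsto_of_le_of_le h1 tendsto_const_nhds ?_ ?_
    · intro k
      show cc k * (1 - (l - 1) / 2 * (1 / ((k : ℝ) + 1))) ≤ ‖v k (x k)‖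
      have e : cc k / ‖u k‖ * ‖u k (x k)‖ = cc k * (‖u k (x k)‖ / ‖u k‖) := by ring
      rw [hval, e]
      refine mul_le_mul_of_nonneg_left ?_ (cc_pos k).le
      rw [le_div_iff₀ (hpos k)]
      have h2 : 0 ≤ (l - 1) / 2 * (1 / ((k : ℝ) + 1)) := mul_nonneg (by linarith) (by positivity)
      have h3 : 1 ≤ ‖u k‖ := by linarith [huN k]
      nlinarith [hx' k]
    · intro k
      show ‖v k (x k)‖ ≤ 1
      calc ‖v k (x k)‖ ≤ ‖v k‖ * ‖x k‖ := (v k).le_opNorm _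
        _ = cc k := by rw [hx k, mul_one, hvn]
        _ ≤ 1 := (cc_lt_one k).le
  · intro k
    have h1 : ‖u k (x k)‖ ≤ ‖w (x k)‖ + ‖f (φ k) (x k)‖ := norm_add_le _ _
    have h2 : ‖f (φ k) (x k)‖ ≤ 1 := by
      have := (f (φ k)).le_opNorm (x k)
      rwa [hx k, hf, mul_one] at this
    have h3 : 1 / ((k : ℝ) + 1) ≤ 1 := by
      rw [div_le_one (by positivity)]
      linarith [Nat.cast_nonneg (α := ℝ) k]
    have h4 : (l - 1) / 2 * (1 / ((k : ℝ) + 1)) ≤ (l - 1) / 2 :=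
      mul_le_of_le_one_right (by linarith) h3
    linarith [hx' k, huN k]

theorem norm_I_le : ‖(RCLike.I : 𝕜)‖ ≤ 1 := by
  rcases eq_or_ne (RCLike.I : 𝕜) 0 with h | h
  · rw [h, norm_zero]
    exact zero_le_one
  · exact (RCLike.norm_I_of_ne_zero h).le

theorem norm_le_re_im (z : 𝕜) : ‖z‖ ≤ |RCLike.re z| + |RCLike.im z| := by
  have h1 : z = ((RCLike.re z : ℝ) : 𝕜) + ((RCLike.im z : ℝ) : 𝕜) * RCLike.I :=
    (RCLike.re_add_im z).symm
  calc ‖z‖ = ‖((RCLike.re z : ℝ) : 𝕜) + ((RCLike.im z : ℝ) : 𝕜) * RCLike.I‖ := by rw [← h1]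
    _ ≤ ‖((RCLike.re z : ℝ) : 𝕜)‖ + ‖((RCLike.im z : ℝ) : 𝕜) * RCLike.I‖ := norm_add_le _ _
    _ ≤ |RCLike.re z| + |RCLike.im z| := by
        rw [norm_mul, RCLike.norm_ofReal, RCLike.norm_ofReal]
        exact add_le_add le_rfl (mul_le_of_le_one_right (abs_nonneg _) norm_I_le)

/-- rotation of vectors -/
theorem exists_rot (φ : StrongDual 𝕜 E) (x : E) :
    ∃ y, ‖y‖ ≤ ‖x‖ ∧ φ y = (‖φ x‖ : 𝕜) := by
  rcases eq_or_ne (φ x) 0 with h0 | h0
  · exact ⟨0, by simp, by simp [h0]⟩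
  · have hpos : 0 < ‖φ x‖ := norm_pos_iff.2 h0
    refine ⟨((starRingEnd 𝕜) (φ x) / (‖φ x‖ : 𝕜)) • x, ?_, ?_⟩
    · rw [norm_smul, norm_div, RCLike.norm_conj, RCLike.norm_ofReal, abs_of_pos hpos,
        div_self hpos.ne', one_mul]
    · rw [map_smul, smul_eq_mul, div_mul_eq_mul_div, RCLike.conj_mul, pow_two,
        mul_div_assoc, div_self (by exact_mod_cast hpos.ne'), mul_one]

/-- Selection of a subsequence in the second case. -/
theorem select (f : ℕ → StrongDual 𝕜 E)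
    (hup : ∀ (w : StrongDual 𝕜 E) (l : ℝ), ‖w‖ < l → 1 < l → ∀ᶠ n in atTop, ‖w + f n‖ < l) :
    ∃ n : ℕ → ℕ, ∀ (x : E) (k : ℕ),
      ∑ j ∈ Finset.range k, |RCLike.re (((cc j : ℝ) : 𝕜) * f (n j) x)| ≤ ‖x‖ := by
  classical
  have hstep : ∀ (k : ℕ) (S : {S : Finset (StrongDual 𝕜 E) // ∀ w ∈ S, ‖w‖ < cc k}), ∃ n : ℕ,
      ∀ w ∈ S.1, ‖w + ((cc k : ℝ) : 𝕜) • f n‖ < cc (k + 1) ∧
        ‖w - ((cc k : ℝ) : 𝕜) • f n‖ < cc (k + 1) := by
    rintro k ⟨S, hS⟩
    have hpos := cc_pos k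
    have key : ∀ w : StrongDual 𝕜 E, ‖w‖ < cc k →
        ∀ᶠ n in atTop, ‖w + ((cc k : ℝ) : 𝕜) • f n‖ < cc (k + 1) := by
      intro w hw
      have h1 := hup (((cc k)⁻¹ : ℝ) • w) (cc (k + 1) / cc k) (by
        rw [norm_smul, norm_inv, Real.norm_of_nonneg hpos.le, inv_mul_eq_div,
          div_lt_div_iff_of_pos_right hpos]
        exact hw.trans (cc_lt_succ k)) (by
        rw [lt_div_iff₀ hpos, one_mul]
        exact cc_lt_succ k)
      filter_upwards [h1] with n hn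
      have e : w + ((cc k : ℝ) : 𝕜) • f n = (cc k : ℝ) • ((((cc k)⁻¹ : ℝ) • w) + f n) := by
        rw [smul_add, smul_smul, mul_inv_cancel₀ hpos.ne', one_smul]
        congr 1
        ext y
        simp [RCLike.real_smul_eq_coe_mul]
      rw [e, norm_smul, Real.norm_of_nonneg hpos.le]
      rw [lt_div_iff₀ hpos, mul_comm] at hn
      exact hn
    have h2 : ∀ᶠ n in atTop, ∀ w ∈ S, ‖w + ((cc k : ℝ) : 𝕜) • f n‖ < cc (k + 1) :=
      (Finset.eventually_all S).2 fun w hw => key w (hS w hw)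
    have h3 : ∀ᶠ n in atTop, ∀ w ∈ S, ‖-w + ((cc k : ℝ) : 𝕜) • f n‖ < cc (k + 1) :=
      (Finset.eventually_all S).2 fun w hw => key (-w) (by rw [norm_neg]; exact hS w hw)
    obtain ⟨n, hn2, hn3⟩ := (h2.and h3).exists
    refine ⟨n, fun w hw => ⟨hn2 w hw, ?_⟩⟩
    have h4 := hn3 w hw
    have e : w - ((cc k : ℝ) : 𝕜) • f n = -(-w + ((cc k : ℝ) : 𝕜) • f n) := by abel
    rw [e, norm_neg]
    exact h4
  choose N hN using hstep
  let S : (k : ℕ) → {S : Finset (StrongDual 𝕜 E) // ∀ w ∈ S, ‖w‖ < cc k} := fun k =>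
    Nat.rec ⟨{0}, by
      intro w hw
      rw [Finset.mem_singleton.1 hw, norm_zero]
      exact cc_pos 0⟩ (fun k S =>
      ⟨S.1.image (fun w => w + ((cc k : ℝ) : 𝕜) • f (N k S)) ∪
        S.1.image (fun w => w - ((cc k : ℝ) : 𝕜) • f (N k S)), by
        intro w hw
        rcases Finset.mem_union.1 hw with hw | hw
        · obtain ⟨w', hw', rfl⟩ := Finset.mem_image.1 hw
          exact (hN k S w' hw').1
        · obtain ⟨w', hw', rfl⟩ := Finset.mem_image.1 hw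
          exact (hN k S w' hw').2⟩) k
  refine ⟨fun k => N k (S k), fun x k => ?_⟩
  have hex : ∀ k, ∃ w ∈ (S k).1, RCLike.re (w x) =
      ∑ j ∈ Finset.range k, |RCLike.re (((cc j : ℝ) : 𝕜) * f (N j (S j)) x)| := by
    intro k
    induction k with
    | zero => exact ⟨0, Finset.mem_singleton_self _, by simp⟩
    | succ k ih =>
      obtain ⟨w, hw, hw'⟩ := ih
      rcases le_total 0 (RCLike.re (((cc k : ℝ) : 𝕜) * f (N k (S k)) x)) with h0 | h0
      · refine ⟨w + ((cc k : ℝ) : 𝕜) • f (N k (S k)), Finset.mem_union_left _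
          (Finset.mem_image_of_mem _ hw), ?_⟩
        rw [Finset.sum_range_succ, ← hw', abs_of_nonneg h0, add_apply, smul_apply, smul_eq_mul,
          map_add]
      · refine ⟨w - ((cc k : ℝ) : 𝕜) • f (N k (S k)), Finset.mem_union_right _
          (Finset.mem_image_of_mem _ hw), ?_⟩
        rw [Finset.sum_range_succ, ← hw', abs_of_nonpos h0, sub_apply, smul_apply, smul_eq_mul,
          map_sub, sub_eq_add_neg]
  obtain ⟨w, hw, hw'⟩ := hex k
  rw [← hw']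
  have h1 := (S k).2 w hw
  calc RCLike.re (w x) ≤ ‖w x‖ := RCLike.re_le_norm _
    _ ≤ ‖w‖ * ‖x‖ := w.le_opNorm x
    _ ≤ 1 * ‖x‖ := mul_le_mul_of_nonneg_right (h1.le.trans (cc_lt_one k).le) (norm_nonneg _)
    _ = ‖x‖ := one_mul _

/-- Second case: a functional which does not attain its norm. -/
theorem case_two (f : ℕ → StrongDual 𝕜 E) (hf : ∀ n, ‖f n‖ = 1)
    (hup : ∀ (w : StrongDual 𝕜 E) (l : ℝ), ‖w‖ < l → 1 < l → ∀ᶠ n in atTop, ‖w + f n‖ < l) :
    ∃ g : StrongDual 𝕜 E, 1 ≤ ‖g‖ ∧ ∀ x, ‖x‖ ≤ 1 → ‖g x‖ < 1 := by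
  obtain ⟨n, hn⟩ := select f hup
  set G : ℕ → StrongDual 𝕜 E := fun j => ((cc j : ℝ) : 𝕜) • f (n j) with hG
  have hn' : ∀ (x : E) (k : ℕ), ∑ j ∈ Finset.range k, |RCLike.re (G j x)| ≤ ‖x‖ := hn
  have hsum : ∀ x, Summable fun j => |RCLike.re (G j x)| := fun x =>
    summable_of_sum_range_le (fun _ => abs_nonneg _) (hn' x)
  have htsum : ∀ x, ∑' j, |RCLike.re (G j x)| ≤ ‖x‖ := fun x =>
    Real.tsum_le_of_sum_range_le (fun _ => abs_nonneg _) (hn' x)
  have him : ∀ x j, |RCLike.im (G j x)| = |RCLike.re (G j ((RCLike.I : 𝕜) • x))| := by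
    intro x j
    rw [map_smul, smul_eq_mul, RCLike.I_mul_re, abs_neg]
  have hIx : ∀ x : E, ‖(RCLike.I : 𝕜) • x‖ ≤ ‖x‖ := by
    intro x
    rw [norm_smul]
    exact mul_le_of_le_one_left (norm_nonneg _) norm_I_le
  have hsumn : ∀ x, Summable fun j => ‖G j x‖ := by
    intro x
    refine Summable.of_nonneg_of_le (fun _ => norm_nonneg _) (fun j => ?_)
      ((hsum x).add (hsum ((RCLike.I : 𝕜) • x)))
    rw [← him]
    exact norm_le_re_im _
  have htsumn : ∀ x, ∑' j, ‖G j x‖ ≤ 2 * ‖x‖ := by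
    intro x
    calc ∑' j, ‖G j x‖ ≤ ∑' j, (|RCLike.re (G j x)| + |RCLike.re (G j ((RCLike.I : 𝕜) • x))|) :=
          Summable.tsum_le_tsum (fun j => by rw [← him]; exact norm_le_re_im _)
            (hsumn x) ((hsum x).add (hsum _))
      _ = ∑' j, |RCLike.re (G j x)| + ∑' j, |RCLike.re (G j ((RCLike.I : 𝕜) • x))| :=
          (hsum x).tsum_add (hsum _)
      _ ≤ ‖x‖ + ‖x‖ := add_le_add (htsum x) ((htsum _).trans (hIx x))
      _ = 2 * ‖x‖ := by ring
  have hcn : ∀ j x, ‖((cc j : ℝ) : 𝕜) * G j x‖ ≤ ‖G j x‖ := by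
    intro j x
    rw [norm_mul, RCLike.norm_ofReal, abs_of_pos (cc_pos j)]
    exact mul_le_of_le_one_left (norm_nonneg _) (cc_lt_one j).le
  have hsumc : ∀ x, Summable fun j => ((cc j : ℝ) : 𝕜) * G j x := fun x =>
    Summable.of_norm_bounded (hsumn x) fun j => hcn j x
  let g0 : E →ₗ[𝕜] 𝕜 :=
    { toFun := fun x => ∑' j, ((cc j : ℝ) : 𝕜) * G j x
      map_add' := fun x y => by
        rw [← (hsumc x).tsum_add (hsumc y)]
        refine tsum_congr fun j => ?_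
        rw [map_add, mul_add]
      map_smul' := fun c x => by
        rw [RingHom.id_apply, smul_eq_mul, ← (hsumc x).tsum_mul_left]
        refine tsum_congr fun j => ?_
        rw [map_smul, smul_eq_mul]
        ring }
  let g : StrongDual 𝕜 E := g0.mkContinuous 2 fun x => by
    calc ‖∑' j, ((cc j : ℝ) : 𝕜) * G j x‖ ≤ ∑' j, ‖((cc j : ℝ) : 𝕜) * G j x‖ :=
          norm_tsum_le_tsum_norm (Summable.of_nonneg_of_le (fun _ => norm_nonneg _)
            (fun j => hcn j x) (hsumn x))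
      _ ≤ ∑' j, ‖G j x‖ := Summable.tsum_le_tsum (fun j => hcn j x)
          (Summable.of_nonneg_of_le (fun _ => norm_nonneg _) (fun j => hcn j x) (hsumn x)) (hsumn x)
      _ ≤ 2 * ‖x‖ := htsumn x
  have hgre : ∀ x, RCLike.re (g x) = ∑' j, cc j * RCLike.re (G j x) := by
    intro x
    have h1 : g x = ∑' j, ((cc j : ℝ) : 𝕜) * G j x := rfl
    rw [h1]
    have h2 := (RCLike.reCLM (K := 𝕜)).map_tsum (hsumc x)
    rw [RCLike.reCLM_apply] at h2
    rw [h2]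
    refine tsum_congr fun j => ?_
    exact RCLike.re_ofReal_mul _ _
  have hsre : ∀ x, Summable fun j => cc j * RCLike.re (G j x) := fun x =>
    Summable.of_norm_bounded (hsum x) fun j => by
      rw [norm_mul, Real.norm_eq_abs, Real.norm_eq_abs, abs_of_pos (cc_pos j)]
      exact mul_le_of_le_one_left (abs_nonneg _) (cc_lt_one j).le
  refine ⟨g, ?_, ?_⟩
  · -- the norm is at least one
    have hlow : ∀ j, (cc j + 1) * (cc j * cc j) - 1 ≤ ‖g‖ := by
      intro j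
      obtain ⟨x, hx, hx'⟩ := exists_unit (f (n j)) (cc_pos j).le (by rw [hf]; exact cc_lt_one j)
      obtain ⟨y, hy, hy'⟩ := exists_rot (f (n j)) x
      have hy1 : ‖y‖ ≤ 1 := hy.trans hx.le
      have hGj : RCLike.re (G j y) = cc j * ‖f (n j) x‖ := by
        rw [hG]
        simp only
        rw [smul_apply, smul_eq_mul, hy', RCLike.re_ofReal_mul, RCLike.ofReal_re]
      have hGj' : cc j * cc j ≤ RCLike.re (G j y) := by
        rw [hGj]
        exact mul_le_mul_of_nonneg_left hx'.le (cc_pos j).le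
      have h1 : cc j * RCLike.re (G j y) + |RCLike.re (G j y)| ≤
          ∑' i, (cc i * RCLike.re (G i y) + |RCLike.re (G i y)|) := by
        refine ((hsre y).add (hsum y)).le_tsum j fun i _ => ?_
        have h2 : |cc i * RCLike.re (G i y)| ≤ |RCLike.re (G i y)| := by
          rw [abs_mul, abs_of_pos (cc_pos i)]
          exact mul_le_of_le_one_left (abs_nonneg _) (cc_lt_one i).le
        linarith [(abs_le.1 h2).1]
      rw [(hsre y).tsum_add (hsum y), ← hgre] at h1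
      have h3 : RCLike.re (g y) ≤ ‖g‖ := by
        calc RCLike.re (g y) ≤ ‖g y‖ := RCLike.re_le_norm _
          _ ≤ ‖g‖ * ‖y‖ := g.le_opNorm y
          _ ≤ ‖g‖ * 1 := mul_le_mul_of_nonneg_left hy1 (norm_nonneg _)
          _ = ‖g‖ := mul_one _
      have h4 := le_abs_self (RCLike.re (G j y))
      have h5 := htsum y
      have h6 := cc_pos j
      nlinarith
    have hlim : Tendsto (fun j => (cc j + 1) * (cc j * cc j) - 1) atTop
        (𝓝 ((1 + 1) * (1 * 1) - 1)) :=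
      ((cc_tendsto.add tendsto_const_nhds).mul (cc_tendsto.mul cc_tendsto)).sub tendsto_const_nhds
    have h7 := le_of_tendsto' hlim hlow
    linarith
  · intro x hx
    obtain ⟨y, hy, hy'⟩ := exists_rot g x
    have hy1 : ‖y‖ ≤ 1 := hy.trans hx
    have h1 : ‖g x‖ = ∑' j, cc j * RCLike.re (G j y) := by
      rw [← hgre, hy', RCLike.ofReal_re]
    have hs2 : Summable fun j => cc j * |RCLike.re (G j y)| :=
      Summable.of_nonneg_of_le (fun j => mul_nonneg (cc_pos j).le (abs_nonneg _))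
        (fun j => mul_le_of_le_one_left (abs_nonneg _) (cc_lt_one j).le) (hsum y)
    have h2 : ‖g x‖ ≤ ∑' j, cc j * |RCLike.re (G j y)| := by
      rw [h1]
      exact Summable.tsum_le_tsum (fun j => mul_le_mul_of_nonneg_left (le_abs_self _)
        (cc_pos j).le) (hsre y) hs2
    by_cases hall : ∀ j, |RCLike.re (G j y)| = 0
    · have h3 : ∑' j, cc j * |RCLike.re (G j y)| = 0 := by
        simp [hall]
      rw [h3] at h2
      linarith
    · push Not at hall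
      obtain ⟨i, hi⟩ := hall
      have hi' : 0 < |RCLike.re (G i y)| := lt_of_le_of_ne (abs_nonneg _) (Ne.symm hi)
      have h3 : ∑' j, cc j * |RCLike.re (G j y)| < ∑' j, |RCLike.re (G j y)| := by
        refine Summable.tsum_lt_tsum (i := i)
          (fun j => mul_le_of_le_one_left (abs_nonneg _) (cc_lt_one j).le) ?_ hs2 (hsum y)
        have := cc_lt_one i
        nlinarith
      linarith [htsum y]

/-- **Main theorem.** If the pair `(E, ℓ_∞)` has the weak maximizing property then `E` is finite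
dimensional. -/
theorem main [CompleteSpace E] (h : HasWMP 𝕜 E (lp (fun _ : ℕ => 𝕜) ∞)) :
    FiniteDimensional 𝕜 E := by
  by_contra hinf
  have hatt := attain_of_wmp h
  let _ : NormedSpace ℝ E := NormedSpace.restrictScalars ℝ 𝕜 E
  have : IsScalarTower ℝ 𝕜 E := RestrictScalars.isScalarTower ℝ 𝕜 E
  obtain ⟨f, hf, hf0⟩ := exists_null hinf (refl_of_attain hatt)
  by_cases hc : ∃ (w : StrongDual 𝕜 E) (l : ℝ), ‖w‖ < l ∧ 1 < l ∧ ∃ᶠ n in atTop, l ≤ ‖w + f n‖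
  · obtain ⟨w, l, h1, h2, h3⟩ := hc
    exact case_one h f hf hf0 w l h1 h2 h3
  · push Not at hc
    obtain ⟨g, hg1, hg2⟩ := case_two f hf fun w l h1 h2 => by
      have h3 := hc w l h1 h2
      simpa [Filter.not_frequently] using h3
    obtain ⟨x, hx, hx'⟩ := hatt g
    have := hg2 x hx
    linarith

end Pool.Agent.H516W
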